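import Pool.Agent.J4H87.K5.Bas

set_option autoImplicit false

/-!
# Project K5: (Q1) and (Q2)
-/

namespace Pool.Agent.J4H87.K5

open Finset Filter Topology
open scoped Classical

theorem past_true {n : ℕ} : Past (n := n) (fun _ _ => True) := fun _ _ _ _ => Iff.rfl
theorem mono_true {n : ℕ} : Mono (n := n) (fun _ _ => True) := fun _ _ _ _ _ => trivial

/-- all the pairs of `Fin 5` -/
noncomputable def allp : Finset (Sym2 (Fin 5)) := univ.filter (fun p => ¬ p.IsDiag)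

theorem card_allp : allp.card = 10 := by
  have := Sym2.card_subtype_not_diag (α := Fin 5)
  rw [Fintype.card_subtype] at this
  unfold allp
  rw [Fintype.card_fin] at this
  exact this

theorem t_Q1 : S_EV → S_RED → S_Q1 := by
  intro hEV hRED n t A ht
  have h := hEV n t A (fun _ _ => True) ∅ allp ((n : ℝ) ^ 5) ht past_true mono_true
    (by rw [← Finset.card_pos, card_allp]; norm_num) (by simp) (by
      intro p hp
      unfold allp at hp
      exact (Finset.mem_filter.1 hp).2) (by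
      intro r _
      apply ex_le
      intro ω
      rw [if_pos trivial]
      have : (univ.filter (fun x : Fin 5 → Fin n => ∀ p ∈ (∅ : Finset (Sym2 (Fin 5))), p.map x ∈ bt A ω r)).card ≤ n ^ 5 := by
        refine (Finset.card_le_univ _).trans ?_
        rw [Fintype.card_fun, Fintype.card_fin, Fintype.card_fin]
      exact_mod_cast this)
  rw [card_allp] at h
  refine le_trans (pr_mono ?_) h
  intro ω hω
  obtain ⟨x, τ, he⟩ := hRED.1 n t A ω hω
  exact ⟨trivial, x, τ, he, by simp⟩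

/-- the sets of five pairs -/
noncomputable def five : Finset (Finset (Sym2 (Fin 5))) :=
  univ.filter (fun G => G.card = 5 ∧ ∀ q ∈ G, ¬ q.IsDiag)

theorem t_Q2 : S_EV → S_RED → S_C1 → S_K4 → S_Q2 := by
  intro hEV hRED hC1 hK4
  refine ⟨8 * five.card + 200, by positivity, ?_⟩
  intro n t b A ht hA
  have hρ : 0 ≤ rho n t := by
    unfold rho
    have : (2 * t : ℝ) ≤ (n.choose 2 : ℝ) := by exact_mod_cast ht
    have h0 : (0 : ℝ) ≤ t := Nat.cast_nonneg t
    apply div_nonneg h0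
    linarith
  have hK := hK4 n t b A ht hA
  have hG : ∀ G ∈ five, pr (fun ω : Om n => ∃ x τ, Emb A ω t x τ ∧
      ∀ p ∈ ({s(0, 1), s(1, 2), s(3, 4)} : Finset (Sym2 (Fin 5))), ∀ q ∈ G, τ p < τ q) ≤
      8 * (b : ℝ) ^ 3 * rho n t ^ 5 := by
    intro G hG
    unfold five at hG
    obtain ⟨-, hc, hd⟩ := Finset.mem_filter.1 hG
    have h := hEV n t A (fun _ _ => True) {s(0, 1), s(1, 2), s(3, 4)} G (8 * (b : ℝ) ^ 3) ht past_true mono_true
      (by rw [← Finset.card_pos, hc]; norm_num) (by decide) hd (by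
        intro r hr
        apply ex_le
        intro ω
        rw [if_pos trivial]
        have h1 := count3 (bt A ω r)
        have h2 : (bt A ω r).card ≤ b := (Finset.card_le_card (bt_mono A ω hr)).trans (hA ω)
        have h3 : (2 * (bt A ω r).card) ^ 3 ≤ 8 * b ^ 3 := by
          calc (2 * (bt A ω r).card) ^ 3 ≤ (2 * b) ^ 3 := Nat.pow_le_pow_left (by omega) 3
            _ = 8 * b ^ 3 := by ring
        exact_mod_cast h1.trans h3)
    rw [hc] at h
    refine le_trans (pr_mono ?_) h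
    intro ω hω
    exact ⟨trivial, hω⟩
  have hsum : pr (fun ω : Om n => ∃ G ∈ five, ∃ x τ, Emb A ω t x τ ∧
      ∀ p ∈ ({s(0, 1), s(1, 2), s(3, 4)} : Finset (Sym2 (Fin 5))), ∀ q ∈ G, τ p < τ q) ≤
      five.card * (8 * (b : ℝ) ^ 3 * rho n t ^ 5) := by
    refine (pr_exists five _).trans ?_
    refine (Finset.sum_le_sum hG).trans ?_
    rw [Finset.sum_const, nsmul_eq_mul]
  have hmain := (pr_mono (n := n) (E := fun ω => HasK5 (bt A ω t)) (E' := fun ω =>
    (∃ G ∈ five, ∃ x τ, Emb A ω t x τ ∧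
      ∀ p ∈ ({s(0, 1), s(1, 2), s(3, 4)} : Finset (Sym2 (Fin 5))), ∀ q ∈ G, τ p < τ q) ∨
    (∃ x τ, Emb A ω t x τ ∧ ∃ h ∈ ({s(0, 3), s(1, 2), s(1, 3)} : Finset (Sym2 (Fin 5))), ∃ z : Fin 5,
      z ≠ 4 ∧ τ s(0, 1) < τ s(0, 2) ∧ τ s(2, 3) < τ s(0, 2) ∧ τ s(0, 2) < τ h ∧ τ s(0, 2) < τ s(z, 4) ∧
      ∀ w : Fin 5, w ≠ 4 → w ≠ z → τ s(z, 4) < τ s(w, 4))) ?_).trans (pr_or _ _)
  · have e : (8 * (five.card : ℝ) + 200) * (b : ℝ) ^ 3 * rho n t ^ 5 =
      five.card * (8 * (b : ℝ) ^ 3 * rho n t ^ 5) + 200 * (b : ℝ) ^ 3 * rho n t ^ 5 := by ring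
    rw [e]
    linarith
  · intro ω hω
    obtain ⟨x, τ, he⟩ := hRED.1 n t A ω hω
    obtain ⟨hinj, hperm⟩ := hRED.2 n t A ω x τ he
    obtain ⟨σ, h⟩ := hC1 _ τ hinj
    rcases h with ⟨G, hc, hd, h⟩ | ⟨h, hh, z, hz, h1, h2, h3, h4, h5⟩
    · left
      refine ⟨G, ?_, x ∘ σ, fun p => τ (p.map σ), hperm σ, h⟩
      unfold five
      rw [Finset.mem_filter]
      exact ⟨Finset.mem_univ _, hc, hd⟩
    · right
      exact ⟨x ∘ σ, fun p => τ (p.map σ), hperm σ, h, hh, z, hz, h1, h2, h3, h4, h5⟩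

end Pool.Agent.J4H87.K5
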