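import Pool.Agent.J4H87.K5.Q12

set_option autoImplicit false

/-!
# Project K5: (Q3), the union over the patterns
-/

namespace Pool.Agent.J4H87.K5

open Finset Filter Topology
open scoped Classical

theorem ex_affine {n : ℕ} (c d : ℝ) (g : Om n → ℝ) : ex (fun ω => c + d * g ω) = c + d * ex g := by
  have h1 := ex_mul d g
  have h2 := ex_const (n := n) c
  unfold ex at h1 h2 ⊢
  rw [Finset.sum_add_distrib, add_div, h1, h2]

theorem pats_ok : ∀ F ∈ pats, (F.card = 3 ∨ F.card = 4 ∨ F.card = 5) ∧ ∀ p ∈ F, ¬ p.IsDiag := by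
  intro F hF
  unfold pats at hF
  simp only [List.mem_cons, List.not_mem_nil, or_false] at hF
  rcases hF with rfl | rfl | rfl | rfl | rfl | rfl | rfl | rfl | rfl | rfl
  · exact ⟨Or.inl (by decide), by decide⟩
  · exact ⟨Or.inr (Or.inl (by decide)), by decide⟩
  · exact ⟨Or.inr (Or.inl (by decide)), by decide⟩
  · exact ⟨Or.inr (Or.inl (by decide)), by decide⟩
  · exact ⟨Or.inr (Or.inl (by decide)), by decide⟩
  · exact ⟨Or.inr (Or.inl (by decide)), by decide⟩
  · exact ⟨Or.inr (Or.inl (by decide)), by decide⟩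
  · exact ⟨Or.inr (Or.inl (by decide)), by decide⟩
  · exact ⟨Or.inr (Or.inl (by decide)), by decide⟩
  · exact ⟨Or.inr (Or.inr (by decide)), by decide⟩

theorem partA (hEV : S_EV) (hRED : S_RED) (hC2 : S_C2) (hTRI : S_TRI) (hPP : S_PP) (hGOOD : S_GOOD)
    (hCNT : S_CNT) (n t b : ℕ) (A : List (Sym2 (Fin n)) → Prop) (hn : 2 ≤ n) (ht : 2 * t ≤ n.choose 2)
    (hA : Strat t b A) (ρ L D K T : ℝ) (hρ : ρ = rho n t) (hL : L = Real.log n) (hD : D = 2 * ρ * n + 6 * L)
    (hK : K = 4 * (4 * ρ) * b ^ 2 + 4 * (12 * L) * D * b) (hT : T = 6 * b + 48 * K * ρ ^ 2) :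
    pr (fun ω : Om n => HasK5 (bt A ω t)) ≤
      2 / n + 10 * (n * K * ρ ^ 7 + (D * K + n * D * T) * ρ ^ 6 + D ^ 2 * T * ρ ^ 5) := by
  have hρ0 : 0 ≤ ρ := by
    rw [hρ]
    unfold rho
    have : (2 * t : ℝ) ≤ (n.choose 2 : ℝ) := by exact_mod_cast ht
    have h0 : (0 : ℝ) ≤ t := Nat.cast_nonneg t
    apply div_nonneg h0
    linarith
  have hL0 : 0 ≤ L := by
    rw [hL]
    exact Real.log_natCast_nonneg n
  have hD0 : 0 ≤ D := by rw [hD]; positivity
  have hK0 : 0 ≤ K := by rw [hK]; positivity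
  have hT0 : 0 ≤ T := by rw [hT]; positivity
  set Gd : ℕ → Om n → Prop := fun r ω => Good D (4 * ρ) (12 * L) (gr ω r) with hGd
  have hP : Past Gd := by
    intro r ω ω' h
    simp only [hGd, gr_past r ω ω' h]
  have hM : Mono Gd := by
    intro r r' ω hr hG
    have hsub := gr_mono ω hr
    refine ⟨fun x => le_trans ?_ (hG.1 x), fun X Y => le_trans ?_ (hG.2 X Y)⟩
    · exact_mod_cast Finset.card_le_card (Finset.monotone_filter_right _ (fun y _ hy => hsub hy))
    · exact_mod_cast Finset.card_le_card (Finset.monotone_filter_right _ (fun y _ hy => hsub hy))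
  have hcard : ∀ r ≤ t, ∀ ω : Om n, (bt A ω r).card ≤ b := fun r hr ω =>
    (Finset.card_le_card (bt_mono A ω hr)).trans (hA ω)
  have hP4 : ∀ r ≤ t, ∀ ω, Gd r ω → (P4 (bt A ω r) : ℝ) ≤ K := by
    intro r hr ω hG
    rw [hK]
    exact hPP n b _ _ D (4 * ρ) (12 * L) (bt_sub_gr A ω r) (hcard r hr ω) (by positivity) (by positivity) hD0 hG
  have hT3 : ∀ r ≤ t, ex (fun ω => if Gd r ω then (T3 (bt A ω r) : ℝ) else 0) ≤ T := by
    intro r hr
    rw [hT, hρ]
    exact hTRI n t b A Gd K ht hA hP hM hP4 hK0 r hr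
  have hdeg : ∀ r, ∀ ω, Gd r ω → ∀ x : Fin n,
      (((univ : Finset (Fin n)).filter (fun y => s(x, y) ∈ bt A ω r)).card : ℝ) ≤ D := by
    intro r ω hG x
    refine le_trans ?_ (hG.1 x)
    exact_mod_cast Finset.card_le_card (Finset.monotone_filter_right _ (fun y _ hy => bt_sub_gr A ω r hy))
  set E : ℝ := n * K * ρ ^ 7 + (D * K + n * D * T) * ρ ^ 6 + D ^ 2 * T * ρ ^ 5 with hE
  have e1 : 0 ≤ n * K * ρ ^ 7 := by positivity
  have e2 : 0 ≤ (D * K + n * D * T) * ρ ^ 6 := by positivity
  have e3 : 0 ≤ D ^ 2 * T * ρ ^ 5 := by positivity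
  have hbad : pr (fun ω : Om n => ¬ Gd t ω) ≤ 2 / n := by
    have := hGOOD n t hn ht
    rw [← hρ, ← hL, ← hD] at this
    exact this
  -- the patterns
  have hpat : ∀ F ∈ pats.toFinset, pr (fun ω : Om n => Gd t ω ∧ ∃ x τ, Emb A ω t x τ ∧
      ∀ p ∈ F, ∀ q ∈ allp \ F, τ p < τ q) ≤ E := by
    intro F hF
    rw [List.mem_toFinset] at hF
    obtain ⟨hc, hd⟩ := pats_ok F hF
    have hsub : F ⊆ allp := by
      intro p hp
      unfold allp
      rw [Finset.mem_filter]
      exact ⟨Finset.mem_univ _, hd p hp⟩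
    have hcG : (allp \ F).card = 10 - F.card := by
      rw [Finset.card_sdiff_of_subset hsub, card_allp]
    have hdG : ∀ q ∈ allp \ F, ¬ q.IsDiag := by
      intro q hq
      have := (Finset.mem_sdiff.1 hq).1
      unfold allp at this
      exact (Finset.mem_filter.1 this).2
    have hne : (allp \ F).Nonempty := by
      rw [← Finset.card_pos, hcG]
      omega
    have hEVF := fun N hN => hEV n t A Gd F (allp \ F) N ht hP hM hne hd hdG hN
    rcases hc with hc | hc | hc
    · have h := hEVF (n * K) (by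
        intro r hr
        apply ex_le
        intro ω
        split
        · rename_i hG
          have h1 := (hCNT n (bt A ω r) D hD0 (hdeg r ω hG) F hF).1 hc
          have h2 := hP4 r hr ω hG
          exact h1.trans (mul_le_mul_of_nonneg_left h2 (Nat.cast_nonneg n))
        · positivity)
      rw [hcG, hc, ← hρ] at h
      simp only [Nat.reduceSub] at h
      linarith
    · have h := hEVF (D * K + n * D * T) (by
        intro r hr
        have h5 : ex (fun ω => if Gd r ω then
            (((univ : Finset (Fin 5 → Fin n)).filter (fun x => ∀ p ∈ F, p.map x ∈ bt A ω r)).card : ℝ) else 0) ≤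
            ex (fun ω => D * K + n * D * (if Gd r ω then (T3 (bt A ω r) : ℝ) else 0)) := by
          apply ex_mono
          intro ω
          split
          · rename_i hG
            have h1 := (hCNT n (bt A ω r) D hD0 (hdeg r ω hG) F hF).2.1 hc
            have h2 := hP4 r hr ω hG
            have h3 : D * (P4 (bt A ω r) : ℝ) ≤ D * K := mul_le_mul_of_nonneg_left h2 hD0
            have h4 : (0 : ℝ) ≤ n * D * (T3 (bt A ω r) : ℝ) := by positivity
            have h6 : (0 : ℝ) ≤ D * K := by positivity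
            refine h1.trans (max_le ?_ ?_)
            · linarith
            · linarith
          · have h6 : (0 : ℝ) ≤ D * K := by positivity
            linarith
        refine h5.trans ?_
        rw [ex_affine]
        have := mul_le_mul_of_nonneg_left (hT3 r hr) (show (0 : ℝ) ≤ n * D by positivity)
        linarith)
      rw [hcG, hc, ← hρ] at h
      simp only [Nat.reduceSub] at h
      linarith
    · have h := hEVF (D ^ 2 * T) (by
        intro r hr
        have h5 : ex (fun ω => if Gd r ω then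
            (((univ : Finset (Fin 5 → Fin n)).filter (fun x => ∀ p ∈ F, p.map x ∈ bt A ω r)).card : ℝ) else 0) ≤
            ex (fun ω => D ^ 2 * (if Gd r ω then (T3 (bt A ω r) : ℝ) else 0)) := by
          apply ex_mono
          intro ω
          split
          · rename_i hG
            exact (hCNT n (bt A ω r) D hD0 (hdeg r ω hG) F hF).2.2 hc
          · simp
        refine h5.trans ?_
        rw [ex_mul]
        exact mul_le_mul_of_nonneg_left (hT3 r hr) (by positivity))
      rw [hcG, hc, ← hρ] at h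
      simp only [Nat.reduceSub] at h
      linarith
  have hsum : pr (fun ω : Om n => ∃ F ∈ pats.toFinset, Gd t ω ∧ ∃ x τ, Emb A ω t x τ ∧
      ∀ p ∈ F, ∀ q ∈ allp \ F, τ p < τ q) ≤ 10 * E := by
    refine (pr_exists pats.toFinset _).trans ?_
    refine (Finset.sum_le_sum hpat).trans ?_
    rw [Finset.sum_const, nsmul_eq_mul]
    have h1 : pats.toFinset.card ≤ 10 := (List.toFinset_card_le pats).trans (le_of_eq rfl)
    have h2 : 0 ≤ E := by linarith
    exact mul_le_mul_of_nonneg_right (by exact_mod_cast h1) h2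
  have hmain := (pr_mono (n := n) (E := fun ω => HasK5 (bt A ω t)) (E' := fun ω =>
    (¬ Gd t ω) ∨ (∃ F ∈ pats.toFinset, Gd t ω ∧ ∃ x τ, Emb A ω t x τ ∧
      ∀ p ∈ F, ∀ q ∈ allp \ F, τ p < τ q)) ?_).trans (pr_or _ _)
  · linarith
  · intro ω hω
    by_cases hG : Gd t ω
    · right
      obtain ⟨x, τ, he⟩ := hRED.1 n t A ω hω
      obtain ⟨hinj, hperm⟩ := hRED.2 n t A ω x τ he
      obtain ⟨σ, F, hF, h⟩ := hC2 _ τ hinj
      refine ⟨F, List.mem_toFinset.2 hF, hG, x ∘ σ, fun p => τ (p.map σ), hperm σ, ?_⟩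
      intro p hp q hq
      obtain ⟨hq1, hq2⟩ := Finset.mem_sdiff.1 hq
      unfold allp at hq1
      exact h p hp q (Finset.mem_filter.1 hq1).2 hq2
    · left
      exact hG

end Pool.Agent.J4H87.K5
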