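import Pool.Agent.J4H87.K5.Q3a
import Pool.Agent.J4H87.K5.Q3b

set_option autoImplicit false

/-!
# Project K5: (Q3)
-/

namespace Pool.Agent.J4H87.K5

open Finset Filter Topology
open scoped Classical

theorem t_Q3 : S_EV → S_RED → S_C2 → S_TRI → S_PP → S_GOOD → S_CNT → S_Q3 := by
  intro hEV hRED hC2 hTRI hPP hGOOD hCNT η hη
  refine ⟨10 * (8 ^ 7 * (128 * η⁻¹ ^ 6 + 816) + 17 * 8 ^ 6 * (128 * η⁻¹ ^ 6 + 816) +
      (17 * 8 ^ 6 + 289 * 8 ^ 5) * (6 + 3072 * (128 * η⁻¹ ^ 4 + 816))), by positivity, ?_⟩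
  have hlog : Tendsto (fun n : ℕ => Real.log n / (n : ℝ) ^ ((1 : ℝ) / 8)) atTop (𝓝 0) := by
    have h1 := (isLittleO_log_rpow_atTop (show (0 : ℝ) < 1 / 8 by norm_num)).tendsto_div_nhds_zero
    exact h1.comp tendsto_natCast_atTop_atTop
  have hev : ∀ᶠ n : ℕ in atTop, Real.log n / (n : ℝ) ^ ((1 : ℝ) / 8) < min 1 (η / 6) :=
    hlog.eventually_lt_const (by positivity)
  filter_upwards [hev, eventually_ge_atTop 256] with n hn1 hn2 t b A h1 h2 h3 hA
  have hN0 : (0 : ℝ) < n := by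
    have : 0 < n := by omega
    exact_mod_cast this
  have hN256 : (256 : ℝ) ≤ n := by exact_mod_cast hn2
  set N : ℝ := (n : ℝ) with hN
  set s : ℝ := N ^ ((1 : ℝ) / 8) with hs
  have hs0 : 0 < s := Real.rpow_pos_of_pos hN0 _
  have hpow : ∀ k : ℕ, s ^ k = N ^ ((k : ℝ) / 8) := by
    intro k
    rw [hs, ← Real.rpow_natCast, ← Real.rpow_mul hN0.le]
    congr 1
    ring
  have hs8 : s ^ 8 = N := by
    rw [hpow 8]
    norm_num
  have hs12 : N ^ ((3 : ℝ) / 2) = s ^ 12 := by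
    rw [hpow 12]
    congr 1
    norm_num
  have hs13 : N ^ ((13 : ℝ) / 8) = s ^ 13 := by
    rw [hpow 13]
    congr 1
  have hs2 : 2 ≤ s := by
    by_contra hc
    push Not at hc
    have : s ^ 8 < 2 ^ 8 := pow_lt_pow_left₀ hc hs0.le (by norm_num)
    rw [hs8] at this
    norm_num at this
    linarith
  rw [hs12] at h1
  rw [hs13] at h2
  -- the logarithm
  have hL0 : 0 ≤ Real.log N := by
    rw [hN]
    exact Real.log_natCast_nonneg n
  have hL1 : Real.log N ≤ s := by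
    rw [div_lt_iff₀ hs0] at hn1
    have := min_le_left (1 : ℝ) (η / 6)
    nlinarith
  have hL2 : 6 * Real.log N ≤ η * s := by
    rw [div_lt_iff₀ hs0] at hn1
    have := min_le_right (1 : ℝ) (η / 6)
    nlinarith
  have ht0 : (0 : ℝ) < t := lt_of_lt_of_le (by positivity) h1
  -- the binomial coefficient
  have hM : (n.choose 2 : ℝ) = N * (N - 1) / 2 := Nat.cast_choose_two ℝ n
  have hM4 : N ^ 2 / 4 ≤ (n.choose 2 : ℝ) := by
    rw [hM]
    nlinarith
  have ht8 : 8 * (t : ℝ) ≤ N ^ 2 := by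
    have e : N ^ 2 = s ^ 13 * s ^ 3 := by
      rw [← hs8]
      ring
    have h8 : (8 : ℝ) ≤ s ^ 3 := by
      have := pow_le_pow_left₀ (by norm_num : (0 : ℝ) ≤ 2) hs2 3
      linarith
    have h13 : 0 ≤ s ^ 13 := by positivity
    rw [e]
    nlinarith
  have h2t : 2 * t ≤ n.choose 2 := by
    have : (2 * t : ℝ) ≤ (n.choose 2 : ℝ) := by linarith
    exact_mod_cast this
  set u : ℝ := t / N ^ 2 with hu
  have hu0 : 0 < u := by positivity
  have htu : (t : ℝ) = u * N ^ 2 := by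
    rw [hu]
    field_simp
  have hu1 : η ≤ u * s ^ 4 := by
    have e : u * s ^ 4 = t / s ^ 12 := by
      rw [hu, ← hs8]
      field_simp
    rw [e, le_div_iff₀ (by positivity)]
    exact h1
  have hu2 : u * s ^ 3 ≤ 1 := by
    have e : u * s ^ 3 = t / s ^ 13 := by
      rw [hu, ← hs8]
      field_simp
    rw [e, div_le_one (by positivity)]
    exact h2
  have hρ0 : 0 ≤ rho n t := by
    unfold rho
    apply div_nonneg ht0.le
    linarith
  have hρ : rho n t ≤ 8 * u := by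
    unfold rho
    have hden : N ^ 2 / 8 ≤ (n.choose 2 : ℝ) - t := by linarith
    calc (t : ℝ) / ((n.choose 2 : ℝ) - t) ≤ t / (N ^ 2 / 8) :=
          div_le_div_of_nonneg_left ht0.le (by positivity) hden
      _ = 8 * u := by
        rw [hu]
        field_simp
  have hz : (b : ℝ) * N ^ 2 * u ^ 7 = (b : ℝ) * (t : ℝ) ^ 7 / N ^ 12 := by
    rw [hu]
    field_simp
  have hz1 : (b : ℝ) * N ^ 2 * u ^ 7 ≤ 1 := by
    rw [hz, div_le_one (by positivity)]
    exact h3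
  have hb0 : (0 : ℝ) ≤ b := Nat.cast_nonneg b
  have h6 : 6 * Real.log N ≤ u * N := by
    have e : u * N = (u * s ^ 4) * s ^ 4 := by
      rw [← hs8]
      ring
    have h4 : s ≤ s ^ 4 := by
      have : s ^ 1 ≤ s ^ 4 := pow_le_pow_right₀ (by linarith) (by norm_num)
      rwa [pow_one] at this
    rw [e]
    calc 6 * Real.log N ≤ η * s := hL2
      _ ≤ η * s ^ 4 := mul_le_mul_of_nonneg_left h4 hη.le
      _ ≤ (u * s ^ 4) * s ^ 4 := mul_le_mul_of_nonneg_right hu1 (by positivity)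
  have hLu : u * Real.log N ≤ 1 := by
    have h5 : s ≤ s ^ 3 := by
      have : s ^ 1 ≤ s ^ 3 := pow_le_pow_right₀ (by linarith) (by norm_num)
      rwa [pow_one] at this
    calc u * Real.log N ≤ u * s ^ 3 := mul_le_mul_of_nonneg_left (hL1.trans h5) hu0.le
      _ ≤ 1 := hu2
  have hLn : u ^ 3 * (Real.log N * N) ≤ 1 := by
    calc u ^ 3 * (Real.log N * N) ≤ u ^ 3 * (s * N) := by gcongr
      _ = (u * s ^ 3) ^ 3 := by
        rw [← hs8]
        ring
      _ ≤ 1 ^ 3 := by gcongr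
      _ = 1 := one_pow 3
  have hub : u * b ≤ η⁻¹ ^ 6 * N := by
    have e1 : η ^ 6 ≤ (u * s ^ 4) ^ 6 := pow_le_pow_left₀ hη.le hu1 6
    have e2 : (u * b) * η ^ 6 ≤ N := by
      calc (u * b) * η ^ 6 ≤ (u * b) * (u * s ^ 4) ^ 6 := mul_le_mul_of_nonneg_left e1 (by positivity)
        _ = (b * N ^ 2 * u ^ 7) * N := by
          rw [← hs8]
          ring
        _ ≤ 1 * N := mul_le_mul_of_nonneg_right hz1 hN0.le
        _ = N := one_mul N
    rw [inv_pow, inv_mul_eq_div, le_div_iff₀ (by positivity)]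
    exact e2
  have hub3 : u ^ 3 * b ≤ η⁻¹ ^ 4 := by
    have e1 : η ^ 4 ≤ (u * s ^ 4) ^ 4 := pow_le_pow_left₀ hη.le hu1 4
    have e2 : (u ^ 3 * b) * η ^ 4 ≤ 1 := by
      calc (u ^ 3 * b) * η ^ 4 ≤ (u ^ 3 * b) * (u * s ^ 4) ^ 4 := mul_le_mul_of_nonneg_left e1 (by positivity)
        _ = b * N ^ 2 * u ^ 7 := by
          rw [← hs8]
          ring
        _ ≤ 1 := hz1
    rw [inv_pow, ← one_div, le_div_iff₀ (by positivity)]
    exact e2
  have hk := key N η u b (Real.log N) (rho n t) hN0 hη hu0 hb0 hL0 hρ0 hρ h6 hLu hLn hub hub3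
  have hA' := partA hEV hRED hC2 hTRI hPP hGOOD hCNT n t b A (by omega) h2t hA (rho n t) (Real.log N) _ _ _
    rfl rfl rfl rfl rfl
  refine hA'.trans ?_
  rw [← hz]
  nlinarith [hk]

end Pool.Agent.J4H87.K5
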