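import Pool.Agent.J4H15.K5.Cl
import Pool.Agent.J4H15.K5.Ub
import Pool.Agent.J4H15.K5.Red
import Pool.Agent.J4H94.K5.Ev
import Pool.Agent.J4H94.K5.Tri
import Pool.Agent.J4H62.K5.Pp
import Pool.Agent.J4H46.K5.Good
import Pool.Agent.J4H13.K5.C1
import Pool.Agent.J4H13.K5.C2
import Pool.Agent.J4H18.K5.Cnt
import Pool.Agent.J4H68.K5.Fin
import Pool.Agent.J4H87.K5.Q12
import Pool.Agent.J4H87.K5.Q3

set_option autoImplicit false

/-!
# Project K5: assembly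
-/

namespace Pool.Agent.J4H87.K5

open Finset Filter Topology
open scoped Classical

theorem thm_of_K4 (hK4 : S_K4) : S_THM := by
  have hCL := Pool.Agent.J4H15.K5.t_CL
  have hUB := Pool.Agent.J4H15.K5.t_UB hCL
  have hEV := Pool.Agent.J4H94.K5.t_EV hUB
  have hTRI := Pool.Agent.J4H94.K5.t_TRI hUB
  have hRED := Pool.Agent.J4H15.K5.t_RED
  have hTL := Pool.Agent.J4H46.K5.t_TL hCL
  have hGOOD := Pool.Agent.J4H46.K5.t_GOOD hTL
  have hQ1 := t_Q1 hEV hRED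
  have hQ2 := t_Q2 hEV hRED Pool.Agent.J4H13.K5.t_C1 hK4
  have hQ3 := t_Q3 hEV hRED Pool.Agent.J4H13.K5.t_C2 hTRI Pool.Agent.J4H62.K5.t_PP hGOOD
    Pool.Agent.J4H18.K5.t_CNT
  exact Pool.Agent.J4H68.K5.t_FIN hQ1 hQ2 hQ3

/-- never buying respects the budget -/
theorem strat_false (n t b : ℕ) : Strat (n := n) t b (fun _ => False) := by
  intro ω
  have : bt (fun _ => False) ω t = ∅ := by
    unfold bt
    simp
  rw [this]
  simp

/-- the theorem, uniformly in the strategy -/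
theorem uniform (hT : S_THM) (t b : ℕ → ℕ)
    (hb : ∀ᶠ n : ℕ in atTop, 1 ≤ b n ∧ b n ≤ t n ∧ t n ≤ n.choose 2)
    (h : Tendsto (fun n : ℕ => (t n : ℝ) / (n : ℝ) ^ ((3 : ℝ) / 2)) atTop (𝓝 0) ∨
      Tendsto (fun n : ℕ => (b n : ℝ) / Phi n (t n)) atTop (𝓝 0)) (ε : ℝ) (hε : 0 < ε) :
    ∀ᶠ n : ℕ in atTop, ∀ A : List (Sym2 (Fin n)) → Prop, Strat (t n) (b n) A →
      pr (fun ω : Om n => HasK5 (bt A ω (t n))) ≤ ε := by
  have hex : ∀ n : ℕ, ∃ A : List (Sym2 (Fin n)) → Prop, Strat (t n) (b n) A ∧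
      ((∃ A' : List (Sym2 (Fin n)) → Prop, Strat (t n) (b n) A' ∧
        ε < pr (fun ω : Om n => HasK5 (bt A' ω (t n)))) →
        ε < pr (fun ω : Om n => HasK5 (bt A ω (t n)))) := by
    intro n
    by_cases hc : ∃ A' : List (Sym2 (Fin n)) → Prop, Strat (t n) (b n) A' ∧
        ε < pr (fun ω : Om n => HasK5 (bt A' ω (t n)))
    · obtain ⟨A', h1, h2⟩ := hc
      exact ⟨A', h1, fun _ => h2⟩
    · exact ⟨fun _ => False, strat_false n _ _, fun h' => absurd h' hc⟩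
  choose A hA1 hA2 using hex
  have hlim := hT t b A hb hA1 h
  filter_upwards [hlim.eventually_le_const hε] with n hn A' hA'
  by_contra hc
  push Not at hc
  have := hA2 n ⟨A', hA', hc⟩
  linarith

end Pool.Agent.J4H87.K5
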