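import Pool.Agent.J4H87.K5.Stm

set_option autoImplicit false

/-!
# Project K5: basic facts on `pr`, `ex`
-/

namespace Pool.Agent.J4H87.K5

open Finset Filter Topology
open scoped Classical

theorem om_nonempty (n : ℕ) : Nonempty (Om n) := by
  have h : Fintype.card (Fin (n.choose 2)) = Fintype.card (Pr n) := by
    rw [Fintype.card_fin]
    have := Sym2.card_subtype_not_diag (α := Fin n)
    rw [Fintype.card_fin] at this
    rw [← this]
  exact ⟨Fintype.equivOfCardEq h⟩

theorem card_om_pos (n : ℕ) : 0 < (Fintype.card (Om n) : ℝ) := by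
  have := om_nonempty n
  exact_mod_cast Fintype.card_pos

theorem pr_nonneg {n : ℕ} (E : Om n → Prop) : 0 ≤ pr E := by
  unfold pr
  positivity

theorem pr_mono {n : ℕ} {E E' : Om n → Prop} (h : ∀ ω, E ω → E' ω) : pr E ≤ pr E' := by
  unfold pr
  apply div_le_div_of_nonneg_right _ (card_om_pos n).le
  exact_mod_cast Finset.card_le_card (Finset.monotone_filter_right _ (fun ω _ hω => h ω hω))

theorem pr_or {n : ℕ} (E E' : Om n → Prop) : pr (fun ω => E ω ∨ E' ω) ≤ pr E + pr E' := by
  unfold pr
  rw [← add_div]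
  apply div_le_div_of_nonneg_right _ (card_om_pos n).le
  have : (univ.filter (fun ω : Om n => E ω ∨ E' ω)).card ≤ (univ.filter E).card + (univ.filter E').card := by
    rw [Finset.filter_or]
    exact Finset.card_union_le _ _
  refine le_trans (Nat.cast_le.2 ?_) (Nat.cast_add _ _).le
  convert this

theorem pr_false {n : ℕ} : pr (fun _ : Om n => False) = 0 := by
  unfold pr
  simp

theorem pr_le_one {n : ℕ} (E : Om n → Prop) : pr E ≤ 1 := by
  unfold pr
  rw [div_le_one (card_om_pos n)]
  exact_mod_cast Finset.card_le_univ _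

theorem pr_exists {n : ℕ} {ι : Type*} (s : Finset ι) (E : ι → Om n → Prop) :
    pr (fun ω => ∃ i ∈ s, E i ω) ≤ ∑ i ∈ s, pr (E i) := by
  induction s using Finset.induction_on with
  | empty => simp [pr_false]
  | insert a s ha ih =>
    rw [Finset.sum_insert ha]
    refine le_trans (pr_mono (E' := fun ω => E a ω ∨ ∃ i ∈ s, E i ω) ?_) ((pr_or _ _).trans (by linarith))
    intro ω h
    obtain ⟨i, hi, h'⟩ := h
    rw [Finset.mem_insert] at hi
    rcases hi with rfl | hi
    · exact Or.inl h'
    · exact Or.inr ⟨i, hi, h'⟩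

theorem ex_mono {n : ℕ} {f g : Om n → ℝ} (h : ∀ ω, f ω ≤ g ω) : ex f ≤ ex g := by
  unfold ex
  exact div_le_div_of_nonneg_right (Finset.sum_le_sum (fun ω _ => h ω)) (card_om_pos n).le

theorem ex_const {n : ℕ} (c : ℝ) : ex (fun _ : Om n => c) = c := by
  unfold ex
  rw [Finset.sum_const, nsmul_eq_mul, Finset.card_univ]
  field_simp [(card_om_pos n).ne']

theorem ex_le {n : ℕ} {f : Om n → ℝ} {c : ℝ} (h : ∀ ω, f ω ≤ c) : ex f ≤ c := by
  rw [← ex_const (n := n) c]
  exact ex_mono h

theorem ex_mul {n : ℕ} (c : ℝ) (f : Om n → ℝ) : ex (fun ω => c * f ω) = c * ex f := by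
  unfold ex
  rw [← Finset.mul_sum, mul_div_assoc]

theorem bt_mono {n : ℕ} (A : List (Sym2 (Fin n)) → Prop) (ω : Om n) {r t : ℕ} (h : r ≤ t) :
    bt A ω r ⊆ bt A ω t := by
  unfold bt
  apply Finset.image_subset_image
  intro j hj
  rw [Finset.mem_filter] at hj ⊢
  exact ⟨hj.1, by omega, hj.2.2⟩

theorem bt_sub_gr {n : ℕ} (A : List (Sym2 (Fin n)) → Prop) (ω : Om n) (r : ℕ) : bt A ω r ⊆ gr ω r := by
  unfold bt gr
  apply Finset.image_subset_image
  intro j hj
  rw [Finset.mem_filter] at hj ⊢
  exact ⟨hj.1, hj.2.1⟩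

theorem gr_mono {n : ℕ} (ω : Om n) {r t : ℕ} (h : r ≤ t) : gr ω r ⊆ gr ω t := by
  unfold gr
  apply Finset.image_subset_image
  intro j hj
  rw [Finset.mem_filter] at hj ⊢
  exact ⟨hj.1, by omega⟩

theorem gr_past {n : ℕ} (r : ℕ) (ω ω' : Om n) (h : ∀ j : Fin (n.choose 2), j.1 < r → ω j = ω' j) :
    gr ω r = gr ω' r := by
  unfold gr
  apply Finset.image_congr
  intro j hj
  have := (Finset.mem_filter.1 (Finset.mem_coe.1 hj)).2
  unfold off
  rw [h j this]

/-- ordered pairs of the edges of `B` -/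
theorem cardD {n : ℕ} (B : Finset (Sym2 (Fin n))) :
    ((univ : Finset (Fin n × Fin n)).filter (fun z => s(z.1, z.2) ∈ B)).card ≤ 2 * B.card := by
  have h := Finset.card_le_mul_card_image_of_maps_to (s := (univ : Finset (Fin n × Fin n)).filter (fun z => s(z.1, z.2) ∈ B))
    (t := B) (f := fun z => s(z.1, z.2)) (fun z hz => (Finset.mem_filter.1 hz).2) 2 ?_
  · exact h
  · intro e _
    induction e using Sym2.ind with
    | _ a c =>
      calc (((univ : Finset (Fin n × Fin n)).filter (fun z => s(z.1, z.2) ∈ B)).filter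
              (fun z => s(z.1, z.2) = s(a, c))).card ≤ ({(a, c), (c, a)} : Finset (Fin n × Fin n)).card := by
            apply Finset.card_le_card
            intro z hz
            have := (Finset.mem_filter.1 hz).2
            rw [Sym2.eq_iff] at this
            rw [Finset.mem_insert, Finset.mem_singleton]
            rcases this with ⟨h1, h2⟩ | ⟨h1, h2⟩
            · left; exact Prod.ext h1 h2
            · right; exact Prod.ext h1 h2
        _ ≤ 2 := Finset.card_le_two

/-- three pairs covering `Fin 5` -/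
theorem count3 {n : ℕ} (B : Finset (Sym2 (Fin n))) :
    ((univ : Finset (Fin 5 → Fin n)).filter (fun x => ∀ p ∈ ({s(0, 1), s(1, 2), s(3, 4)} : Finset (Sym2 (Fin 5))),
      p.map x ∈ B)).card ≤ (2 * B.card) ^ 3 := by
  set D := (univ : Finset (Fin n × Fin n)).filter (fun z => s(z.1, z.2) ∈ B) with hD
  have h1 : ((univ : Finset (Fin 5 → Fin n)).filter (fun x => ∀ p ∈ ({s(0, 1), s(1, 2), s(3, 4)} : Finset (Sym2 (Fin 5))),
      p.map x ∈ B)).card ≤ (D ×ˢ (D ×ˢ D)).card := by
    apply Finset.card_le_card_of_injOn (fun x => ((x 0, x 1), ((x 1, x 2), (x 3, x 4))))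
    · intro x hx
      have hx' := (Finset.mem_filter.1 (Finset.mem_coe.1 hx)).2
      have e1 := hx' s(0, 1) (by simp)
      have e2 := hx' s(1, 2) (by simp)
      have e3 := hx' s(3, 4) (by simp)
      simp only [Sym2.map_mk] at e1 e2 e3
      simp only [Finset.coe_product, Set.mem_prod, Finset.mem_coe, hD, Finset.mem_filter, Finset.mem_univ, true_and]
      exact ⟨e1, e2, e3⟩
    · intro x _ y _ h
      simp only [Prod.mk.injEq] at h
      obtain ⟨⟨a0, a1⟩, ⟨-, a2⟩, a3, a4⟩ := h
      funext i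
      fin_cases i
      · exact a0
      · exact a1
      · exact a2
      · exact a3
      · exact a4
  refine h1.trans ?_
  rw [Finset.card_product, Finset.card_product]
  have h2 := cardD B
  calc D.card * (D.card * D.card) = D.card ^ 3 := by ring
    _ ≤ (2 * B.card) ^ 3 := Nat.pow_le_pow_left h2 3

end Pool.Agent.J4H87.K5
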