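import Pool.Agent.J4H87.K5.Bas

set_option autoImplicit false

/-!
# Project K5: the real inequality of (Q3)
-/

namespace Pool.Agent.J4H87.K5

open Finset Filter Topology
open scoped Classical

theorem key (n η u b L ρ : ℝ) (hn : 0 < n) (hη : 0 < η) (hu : 0 < u) (hb : 0 ≤ b) (hL : 0 ≤ L) (hρ0 : 0 ≤ ρ)
    (hρ : ρ ≤ 8 * u) (h6 : 6 * L ≤ u * n) (hLu : u * L ≤ 1) (hLn : u ^ 3 * (L * n) ≤ 1)
    (hub : u * b ≤ η⁻¹ ^ 6 * n) (hub3 : u ^ 3 * b ≤ η⁻¹ ^ 4) :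
    n * (4 * (4 * ρ) * b ^ 2 + 4 * (12 * L) * (2 * ρ * n + 6 * L) * b) * ρ ^ 7 +
      ((2 * ρ * n + 6 * L) * (4 * (4 * ρ) * b ^ 2 + 4 * (12 * L) * (2 * ρ * n + 6 * L) * b) +
        n * (2 * ρ * n + 6 * L) *
          (6 * b + 48 * (4 * (4 * ρ) * b ^ 2 + 4 * (12 * L) * (2 * ρ * n + 6 * L) * b) * ρ ^ 2)) * ρ ^ 6 +
      (2 * ρ * n + 6 * L) ^ 2 *
        (6 * b + 48 * (4 * (4 * ρ) * b ^ 2 + 4 * (12 * L) * (2 * ρ * n + 6 * L) * b) * ρ ^ 2) * ρ ^ 5 ≤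
    (8 ^ 7 * (128 * η⁻¹ ^ 6 + 816) + 17 * 8 ^ 6 * (128 * η⁻¹ ^ 6 + 816) +
      (17 * 8 ^ 6 + 289 * 8 ^ 5) * (6 + 3072 * (128 * η⁻¹ ^ 4 + 816))) * (b * n ^ 2 * u ^ 7) := by
  set D : ℝ := 2 * ρ * n + 6 * L with hD
  set K : ℝ := 4 * (4 * ρ) * b ^ 2 + 4 * (12 * L) * D * b with hK
  set T : ℝ := 6 * b + 48 * K * ρ ^ 2 with hT
  set Y0 : ℝ := 128 * η⁻¹ ^ 6 + 816 with hY0
  set T0 : ℝ := 6 + 3072 * (128 * η⁻¹ ^ 4 + 816) with hT0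
  have hD0 : 0 ≤ D := by positivity
  have hK0 : 0 ≤ K := by positivity
  have hTn : 0 ≤ T := by positivity
  have hD1 : D ≤ 17 * (u * n) := by
    have : ρ * n ≤ 8 * u * n := mul_le_mul_of_nonneg_right hρ hn.le
    linarith
  set X : ℝ := 128 * b + 816 * (L * n) with hX
  have hX0 : 0 ≤ X := by positivity
  have hK1 : K ≤ u * b * X := by
    have h1 : ρ * b ^ 2 ≤ 8 * u * b ^ 2 := mul_le_mul_of_nonneg_right hρ (by positivity)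
    have h2 : L * D * b ≤ L * (17 * (u * n)) * b := by gcongr
    rw [hK, hX]
    nlinarith
  have hY : u * X ≤ Y0 * n := by
    rw [hX, hY0]
    have h1 : u * L * n ≤ 1 * n := mul_le_mul_of_nonneg_right hLu hn.le
    nlinarith
  have hX3 : u ^ 3 * X ≤ 128 * η⁻¹ ^ 4 + 816 := by
    rw [hX]
    nlinarith
  have hT1 : T ≤ b * T0 := by
    have h1 : K * ρ ^ 2 ≤ (u * b * X) * (8 * u) ^ 2 := by gcongr
    have h2 : (u * b * X) * (8 * u) ^ 2 = 64 * (b * (u ^ 3 * X)) := by ring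
    have h3 : b * (u ^ 3 * X) ≤ b * (128 * η⁻¹ ^ 4 + 816) := mul_le_mul_of_nonneg_left hX3 hb
    rw [hT, hT0]
    nlinarith
  have hY00 : 0 ≤ Y0 := by positivity
  have hT00 : 0 ≤ T0 := by positivity
  have E1 : n * K * ρ ^ 7 ≤ 8 ^ 7 * Y0 * (b * n ^ 2 * u ^ 7) := by
    calc n * K * ρ ^ 7 ≤ n * (u * b * X) * (8 * u) ^ 7 := by gcongr
      _ = 8 ^ 7 * (n * b * u ^ 7) * (u * X) := by ring
      _ ≤ 8 ^ 7 * (n * b * u ^ 7) * (Y0 * n) := by gcongr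
      _ = 8 ^ 7 * Y0 * (b * n ^ 2 * u ^ 7) := by ring
  have E2 : D * K * ρ ^ 6 ≤ 17 * 8 ^ 6 * Y0 * (b * n ^ 2 * u ^ 7) := by
    calc D * K * ρ ^ 6 ≤ (17 * (u * n)) * (u * b * X) * (8 * u) ^ 6 := by gcongr
      _ = 17 * 8 ^ 6 * (n * b * u ^ 7) * (u * X) := by ring
      _ ≤ 17 * 8 ^ 6 * (n * b * u ^ 7) * (Y0 * n) := by gcongr
      _ = 17 * 8 ^ 6 * Y0 * (b * n ^ 2 * u ^ 7) := by ring
  have E3 : n * D * T * ρ ^ 6 ≤ 17 * 8 ^ 6 * T0 * (b * n ^ 2 * u ^ 7) := by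
    calc n * D * T * ρ ^ 6 ≤ n * (17 * (u * n)) * (b * T0) * (8 * u) ^ 6 := by gcongr
      _ = 17 * 8 ^ 6 * T0 * (b * n ^ 2 * u ^ 7) := by ring
  have E4 : D ^ 2 * T * ρ ^ 5 ≤ 289 * 8 ^ 5 * T0 * (b * n ^ 2 * u ^ 7) := by
    calc D ^ 2 * T * ρ ^ 5 ≤ (17 * (u * n)) ^ 2 * (b * T0) * (8 * u) ^ 5 := by gcongr
      _ = 289 * 8 ^ 5 * T0 * (b * n ^ 2 * u ^ 7) := by ring
  have e : (D * K + n * D * T) * ρ ^ 6 = D * K * ρ ^ 6 + n * D * T * ρ ^ 6 := by ring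
  rw [e]
  linarith

end Pool.Agent.J4H87.K5
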