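import Mathlib

set_option autoImplicit false

/-!
# Project K5 (helper87), MP_833c63_pr (specialist): the budget threshold for `K₅`

THEOREM. If `t = o(n^{3/2})` or `b = o(max{n^12 t^-7, (n²/t)^{5/3}})`, then for every `(t,b)`-strategy a.a.s. `B_t` has no `K₅`
(a full answer to Q1).

PROOF (`ρ = t / (M - t)`, `M = n.choose 2`, always `2 t ≤ M`). Closing principle (CL), (UB): if `F`, `G` are disjoint sets of pairs of
`{0,…,4}`, the expected number of `K₅`s in which all pairs of `F` are bought before all pairs of `G` are offered is at most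
`ρ^{|G|} sup_r E #{x | x(F) ⊆ B_r}`.
(Q1) `F = ∅`: `P ≤ n^5 ρ^10`. (Q2) `P ≤ C b³ ρ⁵`: the first five pairs of a `K₅` contain `{01, 12, 34}` (up to a permutation) or form
`K₄` minus an edge (C1, K4). (Q3) for `η n^{3/2} ≤ t ≤ n^{13/8}`: `P ≤ 2/n + C b t^7 / n^12`: the first four pairs are: a tree with a
path of length 3, or `C₄` (then the first three are a path of length 3), or contain a triangle, or are a star (C2). The number of paths of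
length 3 in `B` is `≤ K = C (ρ b² + b n ρ log n)` by the discrepancy property of `G_t` (PP, TL, GOOD), the expected number of triangles
is `≤ 6 b + 48 K ρ²` since a bought edge which closes `c` triangles closes `≤ 1 + c (c - 1)` (TRI).
-/

namespace Pool.Agent.J4H87.K5

open Finset Filter Topology
open scoped Classical

noncomputable section

/-- the pairs of `[n]` -/
abbrev Pr (n : ℕ) := {e : Sym2 (Fin n) // ¬ e.IsDiag}

/-- the random graph process: the orders of the pairs -/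
abbrev Om (n : ℕ) := Fin (n.choose 2) ≃ Pr n

/-- the edge offered at the time `j + 1` -/
def off {n : ℕ} (ω : Om n) (j : Fin (n.choose 2)) : Sym2 (Fin n) := (ω j).1

/-- the first `i` offered edges, in order -/
def hist {n : ℕ} (ω : Om n) (i : ℕ) : List (Sym2 (Fin n)) := (List.ofFn (off ω)).take i

/-- `G_i` -/
def gr {n : ℕ} (ω : Om n) (i : ℕ) : Finset (Sym2 (Fin n)) :=
  ((univ : Finset (Fin (n.choose 2))).filter (fun j => j.1 < i)).image (off ω)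

/-- `B_i`: a strategy is a set `A` of lists, the edge offered at the time `j + 1` is bought if `A` holds for the list of the
first `j + 1` offered edges (the decisions are functions of this list) -/
def bt {n : ℕ} (A : List (Sym2 (Fin n)) → Prop) (ω : Om n) (i : ℕ) : Finset (Sym2 (Fin n)) :=
  ((univ : Finset (Fin (n.choose 2))).filter (fun j => j.1 < i ∧ A (hist ω (j.1 + 1)))).image (off ω)

/-- the budget -/
def Strat {n : ℕ} (t b : ℕ) (A : List (Sym2 (Fin n)) → Prop) : Prop := ∀ ω : Om n, (bt A ω t).card ≤ b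

/-- probability and expectation -/
def pr {n : ℕ} (E : Om n → Prop) : ℝ := ((univ.filter E).card : ℝ) / (Fintype.card (Om n) : ℝ)
def ex {n : ℕ} (f : Om n → ℝ) : ℝ := (∑ ω : Om n, f ω) / (Fintype.card (Om n) : ℝ)

def HasK5 {n : ℕ} (S : Finset (Sym2 (Fin n))) : Prop :=
  ∃ x : Fin 5 → Fin n, Function.Injective x ∧ ∀ i j : Fin 5, i ≠ j → s(x i, x j) ∈ S

def Phi (n t : ℕ) : ℝ := max ((n : ℝ) ^ 12 / (t : ℝ) ^ 7) (((n : ℝ) ^ 2 / t) ^ ((5 : ℝ) / 3))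

/-- the theorem -/
def S_THM : Prop := ∀ (t b : ℕ → ℕ) (A : ∀ n : ℕ, List (Sym2 (Fin n)) → Prop),
  (∀ᶠ n : ℕ in atTop, 1 ≤ b n ∧ b n ≤ t n ∧ t n ≤ n.choose 2) →
  (∀ n : ℕ, Strat (t n) (b n) (A n)) →
  (Tendsto (fun n : ℕ => (t n : ℝ) / (n : ℝ) ^ ((3 : ℝ) / 2)) atTop (𝓝 0) ∨
    Tendsto (fun n : ℕ => (b n : ℝ) / Phi n (t n)) atTop (𝓝 0)) →
  Tendsto (fun n : ℕ => pr (fun ω : Om n => HasK5 (bt (A n) ω (t n)))) atTop (𝓝 0)

/-- `t / (M - t)` -/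
def rho (n t : ℕ) : ℝ := (t : ℝ) / ((n.choose 2 : ℝ) - t)

/-- depends only on the first `r` offered edges -/
def Past {n : ℕ} (Gd : ℕ → Om n → Prop) : Prop := ∀ (r : ℕ) (ω ω' : Om n),
  (∀ j : Fin (n.choose 2), j.1 < r → ω j = ω' j) → (Gd r ω ↔ Gd r ω')

def Mono {n : ℕ} (Gd : ℕ → Om n → Prop) : Prop := ∀ (r r' : ℕ) (ω : Om n), r ≤ r' → Gd r' ω → Gd r ω

/-- JOB CL (closing lemma). PROOF. Induction on `m`: swap the values of `ω` at the times `s m` and `s'`, where `s'` is any time `≥ r` which is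
none of the `s i`, `i < m` (there are at least `M - t + 1` such times): `(ω, s') ↦ ω ∘ swap (s m) s'` is injective (`s'` is the time at
which `c m` is offered) and the values at the times `< r` and `s i` do not change. -/
def S_CL : Prop := ∀ (n r t m : ℕ) (Q : Om n → Prop),
  (∀ ω ω' : Om n, (∀ j : Fin (n.choose 2), j.1 < r → ω j = ω' j) → (Q ω ↔ Q ω')) → t ≤ n.choose 2 →
  ∀ s : Fin m → Fin (n.choose 2), Function.Injective s → (∀ i, r ≤ (s i).1 ∧ (s i).1 < t) →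
  ∀ c : Fin m → Sym2 (Fin n),
  pr (fun ω => Q ω ∧ ∀ i, off ω (s i) = c i) * ((n.choose 2 : ℝ) - t) ^ m ≤ pr Q

/-- the number of labellings `x` and times `s` with `x ∈ H` at the time of the first closing edge, and the closing edges `x (g i)` offered
at the times `s i < t` -/
def cnt {n k m : ℕ} (t : ℕ) (g : Fin m → Sym2 (Fin k)) (H : ℕ → Om n → Finset (Fin k → Fin n)) (ω : Om n) : ℕ :=
  ((univ : Finset ((Fin k → Fin n) × (Fin m → Fin (n.choose 2)))).filter (fun y => Function.Injective y.2 ∧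
    (∀ i, (y.2 i).1 < t ∧ off ω (y.2 i) = (g i).map y.1) ∧
      ∃ i₀, (∀ i, y.2 i₀ ≤ y.2 i) ∧ y.1 ∈ H (y.2 i₀).1 ω)).card

/-- JOB UB (theorem `t_UB : S_CL → S_UB`), union bound. PROOF. Sum over `y = (x, s)`; for fixed `s` let `r = min s`, apply (CL) with
`Q ω = (x ∈ H r ω)`, then sum over `x` (at most `E #(H r) ≤ N`), then over the at most `t^m` functions `s`. -/
def S_UB : Prop := ∀ (n t k m : ℕ) (g : Fin m → Sym2 (Fin k)) (H : ℕ → Om n → Finset (Fin k → Fin n)) (N : ℝ),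
  0 < m → 2 * t ≤ n.choose 2 →
  (∀ (r : ℕ) (ω ω' : Om n), (∀ j : Fin (n.choose 2), j.1 < r → ω j = ω' j) → H r ω = H r ω') →
  (∀ r ≤ t, ex (fun ω => ((H r ω).card : ℝ)) ≤ N) →
  ex (fun ω => (cnt t g H ω : ℝ)) ≤ N * rho n t ^ m

/-- a copy of `K₅` in `B_t`: the vertices are `x 0, …, x 4`, the pair `p` is offered at the time `τ p + 1` and bought -/
def Emb {n : ℕ} (A : List (Sym2 (Fin n)) → Prop) (ω : Om n) (t : ℕ) (x : Fin 5 → Fin n)
    (τ : Sym2 (Fin 5) → Fin (n.choose 2)) : Prop :=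
  Function.Injective x ∧ ∀ p : Sym2 (Fin 5), ¬ p.IsDiag →
    (τ p).1 < t ∧ off ω (τ p) = p.map x ∧ A (hist ω ((τ p).1 + 1))

/-- JOB EV (theorem `t_EV : S_UB → S_EV`). PROOF. (UB) for `k = 5`, `g` an enumeration of `G`,
`H r ω = {x | Gd r ω ∧ ∀ p ∈ F, p.map x ∈ bt A ω r}` (depends on the past), `s i = τ (g i)` (injective since `ω` and `x` are). -/
def S_EV : Prop := ∀ (n t : ℕ) (A : List (Sym2 (Fin n)) → Prop) (Gd : ℕ → Om n → Prop)
  (F G : Finset (Sym2 (Fin 5))) (N : ℝ), 2 * t ≤ n.choose 2 → Past Gd → Mono Gd → G.Nonempty →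
  (∀ p ∈ F, ¬ p.IsDiag) → (∀ p ∈ G, ¬ p.IsDiag) →
  (∀ r ≤ t, ex (fun ω => if Gd r ω then
    (((univ : Finset (Fin 5 → Fin n)).filter (fun x => ∀ p ∈ F, p.map x ∈ bt A ω r)).card : ℝ) else 0) ≤ N) →
  pr (fun ω => Gd t ω ∧ ∃ x τ, Emb A ω t x τ ∧ ∀ p ∈ F, ∀ q ∈ G, τ p < τ q) ≤ N * rho n t ^ G.card

/-- JOB RED. PROOF. The time at which the pair `p.map x` is offered is unique (`ω` is injective). -/
def S_RED : Prop := (∀ (n t : ℕ) (A : List (Sym2 (Fin n)) → Prop) (ω : Om n), HasK5 (bt A ω t) →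
    ∃ x τ, Emb A ω t x τ) ∧
  (∀ (n t : ℕ) (A : List (Sym2 (Fin n)) → Prop) (ω : Om n) (x : Fin 5 → Fin n)
    (τ : Sym2 (Fin 5) → Fin (n.choose 2)), Emb A ω t x τ →
      (∀ p q : Sym2 (Fin 5), ¬ p.IsDiag → ¬ q.IsDiag → τ p = τ q → p = q) ∧
      ∀ σ : Equiv.Perm (Fin 5), Emb A ω t (x ∘ σ) (fun p => τ (p.map σ)))

/-- JOB C1. PROOF. The five pairs with the smallest `τ`: no isolated vertex: they contain a matching of two pairs and a third pair at the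
fifth vertex (a permutation of `{01, 12, 34}`), `G` = the five other pairs. Otherwise they are `K₄` minus an edge `h`, and the first four
contain a perfect matching of `K₄`: `01, 23`; the fifth is `02`; `z4` is the first pair at `4`. -/
def S_C1 : Prop := ∀ (m : ℕ) (τ : Sym2 (Fin 5) → Fin m),
  (∀ p q : Sym2 (Fin 5), ¬ p.IsDiag → ¬ q.IsDiag → τ p = τ q → p = q) → ∃ σ : Equiv.Perm (Fin 5),
  (∃ G : Finset (Sym2 (Fin 5)), G.card = 5 ∧ (∀ q ∈ G, ¬ q.IsDiag) ∧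
    ∀ p ∈ ({s(0, 1), s(1, 2), s(3, 4)} : Finset (Sym2 (Fin 5))), ∀ q ∈ G, τ (p.map σ) < τ (q.map σ)) ∨
  (∃ h ∈ ({s(0, 3), s(1, 2), s(1, 3)} : Finset (Sym2 (Fin 5))), ∃ z : Fin 5, z ≠ 4 ∧
    τ (Sym2.map σ s(0, 1)) < τ (Sym2.map σ s(0, 2)) ∧ τ (Sym2.map σ s(2, 3)) < τ (Sym2.map σ s(0, 2)) ∧
    τ (Sym2.map σ s(0, 2)) < τ (h.map σ) ∧ τ (Sym2.map σ s(0, 2)) < τ (Sym2.map σ s(z, 4)) ∧
    ∀ w : Fin 5, w ≠ 4 → w ≠ z → τ (Sym2.map σ s(z, 4)) < τ (Sym2.map σ s(w, 4)))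

/-- the patterns of (Q3) -/
def pats : List (Finset (Sym2 (Fin 5))) :=
  [{s(0, 1), s(1, 2), s(2, 3)},
   {s(0, 1), s(1, 2), s(2, 3), s(0, 4)}, {s(0, 1), s(1, 2), s(2, 3), s(1, 4)},
   {s(0, 1), s(1, 2), s(2, 3), s(2, 4)}, {s(0, 1), s(1, 2), s(2, 3), s(3, 4)},
   {s(0, 1), s(1, 2), s(0, 2), s(0, 3)}, {s(0, 1), s(1, 2), s(0, 2), s(1, 3)},
   {s(0, 1), s(1, 2), s(0, 2), s(2, 3)}, {s(0, 1), s(1, 2), s(0, 2), s(3, 4)},
   {s(0, 1), s(0, 2), s(0, 3), s(0, 4), s(1, 2)}]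

/-- JOB C2. PROOF. The first four pairs form one of the six graphs with five vertices and four edges: path, fork (second to fifth pattern),
`C₄` (then the first three pairs are a path: first pattern), triangle with a pendant edge, triangle and an edge, star (then the fifth pair
closes a triangle: last pattern). -/
def S_C2 : Prop := ∀ (m : ℕ) (τ : Sym2 (Fin 5) → Fin m),
  (∀ p q : Sym2 (Fin 5), ¬ p.IsDiag → ¬ q.IsDiag → τ p = τ q → p = q) → ∃ σ : Equiv.Perm (Fin 5), ∃ F ∈ pats,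
  ∀ p ∈ F, ∀ q : Sym2 (Fin 5), ¬ q.IsDiag → q ∉ F → τ (p.map σ) < τ (q.map σ)

/-- JOB K4 (theorem `t_K4 : S_CL → S_K4`). PROOF. Fix `h`, `z` and the times of the five closing pairs `02, h, w4 (w ≠ z)`; let `s₀` be the time
of `02`, `s₁` the first time of the `w4`. For fixed `x 0, …, x 3`: sum over `x 4` of the probability of (`01, 23` bought before `s₀`, `02` at
`s₀`, `h` at its time, `z4` bought before `s₁`, the `w4` at their times): (CL) with `r = s₁` for the closing pairs after `s₁`; then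
`#{x 4 | z4 ∈ B_{s₁}} ≤ b`; then (CL) with `r = s₀` for the closing pairs from `s₀` to `s₁`; then the sum over `x 0, …, x 3` is `≤ (2 b)²`. -/
def S_K4 : Prop := ∀ (n t b : ℕ) (A : List (Sym2 (Fin n)) → Prop), 2 * t ≤ n.choose 2 → Strat t b A →
  pr (fun ω => ∃ x τ, Emb A ω t x τ ∧ ∃ h ∈ ({s(0, 3), s(1, 2), s(1, 3)} : Finset (Sym2 (Fin 5))), ∃ z : Fin 5,
    z ≠ 4 ∧ τ s(0, 1) < τ s(0, 2) ∧ τ s(2, 3) < τ s(0, 2) ∧ τ s(0, 2) < τ h ∧ τ s(0, 2) < τ s(z, 4) ∧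
    ∀ w : Fin 5, w ≠ 4 → w ≠ z → τ s(z, 4) < τ s(w, 4)) ≤ 200 * (b : ℝ) ^ 3 * rho n t ^ 5

/-- the number of (labelled) paths of length 3 and of triangles -/
def P4 {n : ℕ} (B : Finset (Sym2 (Fin n))) : ℕ :=
  ((univ : Finset (Fin 4 → Fin n)).filter (fun x => s(x 0, x 1) ∈ B ∧ s(x 1, x 2) ∈ B ∧ s(x 2, x 3) ∈ B)).card
def T3 {n : ℕ} (B : Finset (Sym2 (Fin n))) : ℕ :=
  ((univ : Finset (Fin 3 → Fin n)).filter (fun x => s(x 0, x 1) ∈ B ∧ s(x 1, x 2) ∈ B ∧ s(x 0, x 2) ∈ B)).card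

/-- degrees and discrepancy -/
def Good {n : ℕ} (D α β : ℝ) (G : Finset (Sym2 (Fin n))) : Prop :=
  (∀ x : Fin n, (((univ : Finset (Fin n)).filter (fun y => s(x, y) ∈ G)).card : ℝ) ≤ D) ∧
  ∀ X Y : Finset (Fin n), (((X ×ˢ Y).filter (fun z => s(z.1, z.2) ∈ G)).card : ℝ) ≤
    α * X.card * Y.card + β * (X.card + Y.card)

/-- JOB PP. PROOF. With `d x = #{y | s(x, y) ∈ B} ≤ D`: `P4 B ≤ ∑_{s(x, y) ∈ G} d x * d y = ∑_{i, j ≥ 1} e_G({d ≥ i}, {d ≥ j})`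
(`i, j ≤ D`), `∑_i #{d ≥ i} = ∑ d ≤ 2 b`. -/
def S_PP : Prop := ∀ (n b : ℕ) (B G : Finset (Sym2 (Fin n))) (D α β : ℝ), B ⊆ G → B.card ≤ b → 0 ≤ α → 0 ≤ β → 0 ≤ D →
  Good D α β G → (P4 B : ℝ) ≤ 4 * α * (b : ℝ) ^ 2 + 4 * β * D * b

/-- JOB TL (theorem `t_TL : S_CL → S_TL`). PROOF. With `N = #(gr ω t ∩ Pp)`: `E (N choose k) ≤ (#Pp choose k) ρ^k` by (CL) with `r = 0`
(every set of `k` pairs: at most `t^k` choices of the times), so `E 2^N ≤ (1 + ρ)^{#Pp} ≤ exp (ρ #Pp)`, and `4 ≥ exp 1`. -/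
def S_TL : Prop := ∀ (n t : ℕ), 2 * t ≤ n.choose 2 → ∀ (Pp : Finset (Sym2 (Fin n))) (lam : ℝ), 0 ≤ lam →
  pr (fun ω : Om n => 2 * rho n t * Pp.card + 2 * lam ≤ ((gr ω t ∩ Pp).card : ℝ)) ≤ Real.exp (-lam)

/-- JOB GOOD (theorem `t_GOOD : S_TL → S_GOOD`). PROOF. (TL) for the pairs `s(x, y)`, `y` arbitrary, with `lam = 3 log n`; and for the pairs
`s(x, y)`, `x ∈ X`, `y ∈ Y` (every pair is counted at most twice in the product), with `lam = 3 (#X + #Y) log n`, `X, Y ≠ ∅`;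
`∑_{X, Y ≠ ∅} n^{-3 (#X + #Y)} = ((1 + n^{-3})^n - 1)²`. -/
def S_GOOD : Prop := ∀ (n t : ℕ), 2 ≤ n → 2 * t ≤ n.choose 2 →
  pr (fun ω : Om n => ¬ Good (2 * rho n t * n + 6 * Real.log n) (4 * rho n t) (12 * Real.log n) (gr ω t)) ≤ 2 / n

/-- JOB TRI (theorem `t_TRI : S_UB → S_TRI`). PROOF. A bought edge which closes `c` triangles: `c ≤ 1 + c (c - 1)`; so `T3 (B_r) ≤ 6 b +` (constant)
times the number of `(x 0, …, x 3)`, with a 4-cycle in `B` closed before the diagonal `02` is offered (in `G_r`); up to a symmetry of the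
4-cycle which fixes the diagonal, `03` is the last edge of the cycle: (UB) with `k = 4`, `m = 2`, `g = (03, 02)`, `H r ω` = the paths of
length 3 in `B_r` if `Gd r ω`. -/
def S_TRI : Prop := ∀ (n t b : ℕ) (A : List (Sym2 (Fin n)) → Prop) (Gd : ℕ → Om n → Prop) (K : ℝ),
  2 * t ≤ n.choose 2 → Strat t b A → Past Gd → Mono Gd → (∀ r ≤ t, ∀ ω, Gd r ω → (P4 (bt A ω r) : ℝ) ≤ K) → 0 ≤ K →
  ∀ r ≤ t, ex (fun ω => if Gd r ω then (T3 (bt A ω r) : ℝ) else 0) ≤ 6 * b + 48 * K * rho n t ^ 2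

/-- JOB CNT (deterministic counts). -/
def S_CNT : Prop := ∀ (n : ℕ) (B : Finset (Sym2 (Fin n))) (D : ℝ), 0 ≤ D →
  (∀ x : Fin n, (((univ : Finset (Fin n)).filter (fun y => s(x, y) ∈ B)).card : ℝ) ≤ D) → ∀ F ∈ pats,
  (F.card = 3 → (((univ : Finset (Fin 5 → Fin n)).filter (fun x => ∀ p ∈ F, p.map x ∈ B)).card : ℝ) ≤ n * P4 B) ∧
  (F.card = 4 → (((univ : Finset (Fin 5 → Fin n)).filter (fun x => ∀ p ∈ F, p.map x ∈ B)).card : ℝ) ≤
    max (D * P4 B) (n * D * T3 B)) ∧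
  (F.card = 5 → (((univ : Finset (Fin 5 → Fin n)).filter (fun x => ∀ p ∈ F, p.map x ∈ B)).card : ℝ) ≤
    D ^ 2 * T3 B)

/-- (Q1), (Q2), (Q3): helper87 -/
def S_Q1 : Prop := ∀ (n t : ℕ) (A : List (Sym2 (Fin n)) → Prop), 2 * t ≤ n.choose 2 →
  pr (fun ω : Om n => HasK5 (bt A ω t)) ≤ (n : ℝ) ^ 5 * rho n t ^ 10

def S_Q2 : Prop := ∃ C : ℝ, 0 < C ∧ ∀ (n t b : ℕ) (A : List (Sym2 (Fin n)) → Prop), 2 * t ≤ n.choose 2 → Strat t b A →
  pr (fun ω : Om n => HasK5 (bt A ω t)) ≤ C * (b : ℝ) ^ 3 * rho n t ^ 5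

def S_Q3 : Prop := ∀ η : ℝ, 0 < η → ∃ C : ℝ, 0 < C ∧ ∀ᶠ n : ℕ in atTop, ∀ (t b : ℕ) (A : List (Sym2 (Fin n)) → Prop),
  η * (n : ℝ) ^ ((3 : ℝ) / 2) ≤ t → (t : ℝ) ≤ (n : ℝ) ^ ((13 : ℝ) / 8) → (b : ℝ) * (t : ℝ) ^ 7 ≤ (n : ℝ) ^ 12 → Strat t b A →
  pr (fun ω : Om n => HasK5 (bt A ω t)) ≤ 2 / n + C * ((b : ℝ) * (t : ℝ) ^ 7 / (n : ℝ) ^ 12)

end

end Pool.Agent.J4H87.K5
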